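import Mathlib

namespace Pool.Agent.Results.MP_936e79_co.NoLinearBound

open SimpleGraph

/-! ## Definitions

A simple cycle of length `n ≥ 3` of a graph `G` is an injective graph homomorphism
`f : Copy (cycleGraph n) G`; its vertices are the `f i`, `i : Fin n`, and the distance along the
cycle between `f i` and `f j` is `(cycleGraph n).dist i j`.  All vertices of the cycle are referred
to by their index `i : Fin n`. -/

variable {V : Type}

/-- The cycle `f` is `μ`-locally geodesic: whenever two vertices of the cycle have the same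
distance `l` in `G` and along the cycle, then `l ≤ μ`. -/
def LocallyGeodesic {G : SimpleGraph V} {n : ℕ} (f : Copy (cycleGraph n) G) (μ : ℕ) : Prop :=
  ∀ (i j : Fin n) (l : ℕ), G.dist (f i) (f j) = l → (cycleGraph n).dist i j = l → l ≤ μ

/-- The vertices with indices `v`, `z` form a `k`-bridge of the cycle `f`:
`d_G(v,z) ≤ k < d_C(v,z)`. -/
def IsBridge {G : SimpleGraph V} {n : ℕ} (f : Copy (cycleGraph n) G) (k : ℕ) (v z : Fin n) :
    Prop :=
  G.dist (f v) (f z) ≤ k ∧ k < (cycleGraph n).dist v z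

/-- `S` (a set of indices of vertices of the cycle) is a side of non-`μ`-locality of the cycle `f`:
there are `x`, `y` on the cycle with `d_G(x,y) = d_C(x,y) = μ + 1` and `S` is the vertex set of an
`x`-`y` arc of the cycle of length `d_C(x,y)`. -/
def IsSide {G : SimpleGraph V} {n : ℕ} (f : Copy (cycleGraph n) G) (μ : ℕ) (S : Set (Fin n)) :
    Prop :=
  ∃ x y : Fin n, G.dist (f x) (f y) = μ + 1 ∧ (cycleGraph n).dist x y = μ + 1 ∧
    ∃ w : (cycleGraph n).Walk x y, w.length = (cycleGraph n).dist x y ∧ S = {i | i ∈ w.support}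

/-- The property in the definition of `bgc`. -/
def BgcProp (G : SimpleGraph V) (μ : ℕ) : Prop :=
  ∀ n : ℕ, 3 ≤ n → ∀ f : Copy (cycleGraph n) G, ¬ LocallyGeodesic f μ →
    ∀ S : Set (Fin n), IsSide f μ S → ∃ v ∈ S, ∃ z ∉ S, IsBridge f ((μ + 1) / 2) v z

/-- The property in the definition of `BGC` (bridge anywhere on the cycle). -/
def RelaxedProp (G : SimpleGraph V) (μ : ℕ) : Prop :=
  ∀ n : ℕ, 3 ≤ n → ∀ f : Copy (cycleGraph n) G, ¬ LocallyGeodesic f μ →
    ∃ v z : Fin n, IsBridge f ((μ + 1) / 2) v z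

/-- `bgc(G)`: the least `μ ≥ 1` with `BgcProp G μ`. -/
noncomputable def bgc (G : SimpleGraph V) : ℕ := sInf {μ : ℕ | 1 ≤ μ ∧ BgcProp G μ}

/-- `BGC(G)`: the least `μ ≥ 1` with `RelaxedProp G μ`. -/
noncomputable def BGC (G : SimpleGraph V) : ℕ := sInf {μ : ℕ | 1 ≤ μ ∧ RelaxedProp G μ}

/-! ## General lemmas -/

/-- A map that moves adjacent vertices by at most `K` is `K`-Lipschitz. -/
lemma norm_le_mul_length {G : SimpleGraph V} {E : Type*} [SeminormedAddCommGroup E] (φ : V → E)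
    (K : ℝ) (h : ∀ u v, G.Adj u v → ‖φ u - φ v‖ ≤ K) {u v : V} (w : G.Walk u v) :
    ‖φ u - φ v‖ ≤ K * w.length := by
  induction w with
  | nil => simp
  | @cons a b c hab p ih =>
    have h1 : ‖φ a - φ c‖ ≤ ‖φ a - φ b‖ + ‖φ b - φ c‖ := norm_sub_le_norm_sub_add_norm_sub _ _ _
    have h2 := h a b hab
    rw [Walk.length_cons]
    push_cast
    linarith

lemma norm_le_mul_dist {G : SimpleGraph V} (hG : G.Connected) {E : Type*}
    [SeminormedAddCommGroup E] (φ : V → E)
    (K : ℝ) (h : ∀ u v, G.Adj u v → ‖φ u - φ v‖ ≤ K) (u v : V) :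
    ‖φ u - φ v‖ ≤ K * G.dist u v := by
  obtain ⟨w, hw⟩ := hG.exists_walk_length_eq_dist u v
  rw [← hw]
  exact norm_le_mul_length φ K h w

lemma dist_chain_le {G : SimpleGraph V} (hG : G.Connected) (c : ℕ → V) (K : ℕ)
    (h : ∀ t < K, c t = c (t + 1) ∨ G.Adj (c t) (c (t + 1))) : G.dist (c 0) (c K) ≤ K := by
  induction K with
  | zero => simp
  | succ K ih =>
    have h1 := ih (fun t ht => h t (by omega))
    have h2 : G.dist (c K) (c (K + 1)) ≤ 1 := by
      rcases h K (by omega) with h3 | h3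
      · rw [← h3]; simp
      · rw [dist_eq_one_iff_adj.mpr h3]
    have h3 := hG.dist_triangle (u := c 0) (v := c K) (w := c (K + 1))
    omega

/-! ## Distances in the cycle graph -/

lemma cycle_adj_iff {n : ℕ} (hn : 3 ≤ n) (u v : Fin n) :
    (cycleGraph n).Adj u v ↔ (v.val = u.val + 1 ∨ u.val = v.val + 1 ∨
      (u.val = 0 ∧ v.val + 1 = n) ∨ (v.val = 0 ∧ u.val + 1 = n)) := by
  rw [cycleGraph_adj']
  have hu := u.isLt
  have hv := v.isLt
  have e1 : (u - v).val = (n - v.val + u.val) % n := by rw [Fin.sub_def]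
  have e2 : (v - u).val = (n - u.val + v.val) % n := by rw [Fin.sub_def]
  rw [e1, e2]
  by_cases huv : v.val ≤ u.val
  · have e3 : (n - v.val + u.val) % n = u.val - v.val := by
      rw [show n - v.val + u.val = (u.val - v.val) + n by omega, Nat.add_mod_right]
      exact Nat.mod_eq_of_lt (by omega)
    rw [e3]
    by_cases h : v.val = u.val
    · have e4 : (n - u.val + v.val) % n = 0 := by
        rw [h, show n - u.val + u.val = n by omega]; simp
      rw [e4]; omega
    · have e4 : (n - u.val + v.val) % n = n - u.val + v.val := Nat.mod_eq_of_lt (by omega)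
      rw [e4]; omega
  · have e3 : (n - u.val + v.val) % n = v.val - u.val := by
      rw [show n - u.val + v.val = (v.val - u.val) + n by omega, Nat.add_mod_right]
      exact Nat.mod_eq_of_lt (by omega)
    have e4 : (n - v.val + u.val) % n = n - v.val + u.val := Nat.mod_eq_of_lt (by omega)
    rw [e3, e4]; omega

lemma cycle_connected {n : ℕ} (hn : 3 ≤ n) : (cycleGraph n).Connected := by
  obtain ⟨m, rfl⟩ : ∃ m, n = m + 1 := ⟨n - 1, by omega⟩
  exact cycleGraph_connected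

/-- index `a mod n` -/
def idx (n : ℕ) (hn : 3 ≤ n) (a : ℕ) : Fin n := ⟨a % n, Nat.mod_lt _ (by omega)⟩

lemma idx_adj {n : ℕ} (hn : 3 ≤ n) (a : ℕ) :
    (cycleGraph n).Adj (idx n hn a) (idx n hn (a + 1)) := by
  rw [cycle_adj_iff hn]
  simp only [idx]
  have h1 : a % n < n := Nat.mod_lt _ (by omega)
  rcases Nat.lt_or_ge (a % n + 1) n with h | h
  · left
    rw [Nat.add_mod, Nat.mod_eq_of_lt (show 1 < n by omega), Nat.mod_eq_of_lt h]
  · right; right; right
    have : a % n + 1 = n := by omega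
    refine ⟨?_, this⟩
    rw [Nat.add_mod, Nat.mod_eq_of_lt (show 1 < n by omega), this, Nat.mod_self]

lemma idx_dist_le {n : ℕ} (hn : 3 ≤ n) (a t : ℕ) :
    (cycleGraph n).dist (idx n hn a) (idx n hn (a + t)) ≤ t :=
  dist_chain_le (cycle_connected hn) (fun s => idx n hn (a + s)) t
    (fun s _ => Or.inr (idx_adj hn (a + s)))

/-- The cyclic distance. -/
def cyc (n : ℕ) (u v : Fin n) : ℤ := min |(u.val : ℤ) - v.val| (n - |(u.val : ℤ) - v.val|)

lemma cyc_le_dist {n : ℕ} (hn : 3 ≤ n) (u v : Fin n) :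
    cyc n u v ≤ (cycleGraph n).dist u v := by
  have h := norm_le_mul_dist (cycle_connected hn) (fun z : Fin n => ((cyc n u z : ℤ) : ℝ)) 1 ?_ u v
  · have h0 : cyc n u u = 0 := by simp [cyc]
    simp only [h0] at h
    have h2 : ((cyc n u v : ℤ) : ℝ) ≤ (cycleGraph n).dist u v := by
      have := neg_le_of_abs_le (h : |((0 : ℤ) : ℝ) - _| ≤ _)
      push_cast at this
      linarith
    exact_mod_cast h2
  · intro a b hab
    rw [cycle_adj_iff hn] at hab
    have hu := u.isLt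
    have ha := a.isLt
    have hb := b.isLt
    have : |cyc n u a - cyc n u b| ≤ 1 := by
      unfold cyc
      rw [abs_le]
      rcases hab with h | h | h | h <;> constructor <;> (try simp only [abs_eq_max_neg]) <;> omega
    rw [← Int.cast_sub, Real.norm_eq_abs, ← Int.cast_abs]
    exact_mod_cast this

lemma dist_le_cyc {n : ℕ} (hn : 3 ≤ n) (u v : Fin n) :
    ((cycleGraph n).dist u v : ℤ) ≤ cyc n u v := by
  wlog huv : u.val ≤ v.val generalizing u v
  · have h := this v u (by omega)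
    rw [SimpleGraph.dist_comm] at h
    have e : cyc n u v = cyc n v u := by
      unfold cyc; rw [abs_sub_comm]
    rw [e]; exact h
  have hu := u.isLt
  have hv := v.isLt
  have e1 : |(u.val : ℤ) - v.val| = v.val - u.val := by
    rw [abs_sub_comm]; exact abs_of_nonneg (by omega)
  unfold cyc
  rw [e1, le_min_iff]
  constructor
  · have h := idx_dist_le hn u.val (v.val - u.val)
    have h1 : idx n hn u.val = u := Fin.ext (Nat.mod_eq_of_lt hu)
    have h2 : idx n hn (u.val + (v.val - u.val)) = v :=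
      Fin.ext (by simp only [idx]; rw [show u.val + (v.val - u.val) = v.val by omega];
                  exact Nat.mod_eq_of_lt hv)
    rw [h1, h2] at h
    omega
  · have h := idx_dist_le hn v.val (n - (v.val - u.val))
    have h1 : idx n hn v.val = v := Fin.ext (Nat.mod_eq_of_lt hv)
    have h2 : idx n hn (v.val + (n - (v.val - u.val))) = u :=
      Fin.ext (by simp only [idx]; rw [show v.val + (n - (v.val - u.val)) = u.val + n by omega,
                    Nat.add_mod_right]; exact Nat.mod_eq_of_lt hu)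
    rw [h1, h2, SimpleGraph.dist_comm] at h
    omega

lemma dist_eq_cyc {n : ℕ} (hn : 3 ≤ n) (u v : Fin n) :
    ((cycleGraph n).dist u v : ℤ) = cyc n u v :=
  le_antisymm (dist_le_cyc hn u v) (cyc_le_dist hn u v)

lemma copy_dist_le {G : SimpleGraph V} {n : ℕ} (hn : 3 ≤ n) (f : Copy (cycleGraph n) G)
    (i j : Fin n) : G.dist (f i) (f j) ≤ (cycleGraph n).dist i j := by
  obtain ⟨w, hw⟩ := (cycle_connected hn).exists_walk_length_eq_dist i j
  have := SimpleGraph.dist_le (w.map f.toHom)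
  rw [Walk.length_map, hw] at this
  exact this

/-! ## The grid graph -/

/-- Vertices: points of the integer grid `{0,…,L}²`; two distinct points are adjacent when their
Euclidean distance is at most `m`. -/
def gridGraph (L m : ℕ) : SimpleGraph (Fin (L + 1) × Fin (L + 1)) where
  Adj p q := p ≠ q ∧ ((p.1.val : ℤ) - q.1.val) ^ 2 + ((p.2.val : ℤ) - q.2.val) ^ 2 ≤ (m : ℤ) ^ 2
  symm := ⟨fun p q h => ⟨h.1.symm, by have := h.2; nlinarith⟩⟩
  loopless := ⟨fun p h => h.1 rfl⟩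

lemma gridGraph_connected (L m : ℕ) (hm : 1 ≤ m) : (gridGraph L m).Connected := by
  have h := (pathGraph_connected L).boxProd (pathGraph_connected L)
  refine h.mono ?_
  intro p q hpq
  have hm' : (1 : ℤ) ≤ (m : ℤ) ^ 2 := by
    have : (1 : ℤ) ≤ m := by exact_mod_cast hm
    nlinarith
  refine ⟨hpq.ne, ?_⟩
  rw [boxProd_adj, pathGraph_adj, pathGraph_adj] at hpq
  rcases hpq with ⟨h1 | h1, h2⟩ | ⟨h1 | h1, h2⟩
  · have h3 : (p.1.val : ℤ) - q.1.val = -1 := by omega
    rw [h3, h2]; norm_num; exact hm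
  · have h3 : (p.1.val : ℤ) - q.1.val = 1 := by omega
    rw [h3, h2]; norm_num; exact hm
  · have h3 : (p.2.val : ℤ) - q.2.val = -1 := by omega
    rw [h3, h2]; norm_num; exact hm
  · have h3 : (p.2.val : ℤ) - q.2.val = 1 := by omega
    rw [h3, h2]; norm_num; exact hm

/-- Points whose Euclidean distance is at most `(K-1)·2K` are at graph distance at most `K` in
`gridGraph L (2K)`. -/
lemma grid_dist_le (L K : ℕ) (hK : 1 ≤ K) (p q : Fin (L + 1) × Fin (L + 1))
    (h : ((p.1.val : ℤ) - q.1.val) ^ 2 + ((p.2.val : ℤ) - q.2.val) ^ 2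
      ≤ (((K : ℤ) - 1) * (2 * K)) ^ 2) :
    (gridGraph L (2 * K)).dist p q ≤ K := by
  set a : ℤ := (q.1.val : ℤ) - p.1.val with ha
  set b : ℤ := (q.2.val : ℤ) - p.2.val with hb
  have hK' : (1 : ℤ) ≤ K := by exact_mod_cast hK
  have hKpos : (0 : ℤ) < K := by omega
  -- range of the intermediate coordinates
  have hrange : ∀ (a x y : ℤ) (t : ℕ), a = y - x → 0 ≤ x → x ≤ L → 0 ≤ y → y ≤ L → t ≤ K →
      0 ≤ x + a * t / K ∧ x + a * t / K ≤ L := by
    intro a x y t ha hx0 hx1 hy0 hy1 ht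
    have ht' : (t : ℤ) ≤ K := by exact_mod_cast ht
    have ht0 : (0 : ℤ) ≤ t := by positivity
    rcases le_total 0 a with h0 | h0
    · have h1 : 0 ≤ a * t / K := Int.ediv_nonneg (by positivity) (by omega)
      have h2 : a * t / K ≤ a := by
        apply Int.ediv_le_of_le_mul hKpos
        nlinarith
      omega
    · have h1 : a * t / K ≤ 0 := by
        apply Int.ediv_le_of_le_mul hKpos
        nlinarith
      have h2 : a ≤ a * t / K := by
        apply (Int.le_ediv_iff_mul_le hKpos).mpr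
        nlinarith
      omega
  have hp1 := p.1.isLt
  have hp2 := p.2.isLt
  have hq1 := q.1.isLt
  have hq2 := q.2.isLt
  have hr1 : ∀ t : ℕ, t ≤ K → 0 ≤ (p.1.val : ℤ) + a * t / K ∧ (p.1.val : ℤ) + a * t / K ≤ L :=
    fun t ht => hrange a p.1.val q.1.val t ha (by omega) (by omega) (by omega) (by omega) ht
  have hr2 : ∀ t : ℕ, t ≤ K → 0 ≤ (p.2.val : ℤ) + b * t / K ∧ (p.2.val : ℤ) + b * t / K ≤ L :=
    fun t ht => hrange b p.2.val q.2.val t hb (by omega) (by omega) (by omega) (by omega) ht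
  let c : ℕ → Fin (L + 1) × Fin (L + 1) := fun t =>
    (Fin.ofNat (L + 1) ((p.1.val : ℤ) + a * t / K).toNat,
     Fin.ofNat (L + 1) ((p.2.val : ℤ) + b * t / K).toNat)
  have hc1 : ∀ t : ℕ, t ≤ K → (((c t).1.val : ℕ) : ℤ) = (p.1.val : ℤ) + a * t / K := by
    intro t ht
    have h1 := hr1 t ht
    have : ((c t).1.val : ℕ) = ((p.1.val : ℤ) + a * t / K).toNat :=
      Nat.mod_eq_of_lt (by omega)
    rw [this]; omega
  have hc2 : ∀ t : ℕ, t ≤ K → (((c t).2.val : ℕ) : ℤ) = (p.2.val : ℤ) + b * t / K := by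
    intro t ht
    have h1 := hr2 t ht
    have : ((c t).2.val : ℕ) = ((p.2.val : ℤ) + b * t / K).toNat :=
      Nat.mod_eq_of_lt (by omega)
    rw [this]; omega
  have hc0 : c 0 = p := by
    have e1 := hc1 0 (by omega)
    have e2 := hc2 0 (by omega)
    simp only [Nat.cast_zero, mul_zero, Int.zero_ediv, add_zero] at e1 e2
    exact Prod.ext (Fin.ext (by exact_mod_cast e1)) (Fin.ext (by exact_mod_cast e2))
  have hcK : c K = q := by
    have e1 := hc1 K le_rfl
    have e2 := hc2 K le_rfl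
    rw [Int.mul_ediv_cancel _ (by omega)] at e1 e2
    exact Prod.ext (Fin.ext (by omega)) (Fin.ext (by omega))
  have hstep : ∀ (a : ℤ) (t : ℕ), K * |a * ((t + 1 : ℕ) : ℤ) / K - a * t / K| ≤ |a| + K := by
    intro a t
    have h1 := Int.mul_ediv_self_le (x := a * ((t + 1 : ℕ) : ℤ)) (k := (K : ℤ)) (by omega)
    have h2 := Int.lt_mul_ediv_self_add (x := a * ((t + 1 : ℕ) : ℤ)) (k := (K : ℤ)) (by omega)
    have h3 := Int.mul_ediv_self_le (x := a * (t : ℤ)) (k := (K : ℤ)) (by omega)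
    have h4 := Int.lt_mul_ediv_self_add (x := a * (t : ℤ)) (k := (K : ℤ)) (by omega)
    have h5 : a * ((t + 1 : ℕ) : ℤ) = a * t + a := by push_cast; ring
    rw [h5] at h1 h2 ⊢
    have h6 := le_abs_self a
    have h7 := neg_abs_le a
    have h8 : (K : ℤ) * |(a * t + a) / K - a * t / K| = |K * ((a * t + a) / K) - K * (a * t / K)| := by
      rw [← mul_sub, abs_mul, abs_of_pos hKpos]
    rw [h8, abs_le]
    constructor <;> linarith
  have key := dist_chain_le (gridGraph_connected L (2 * K) (by omega)) c K ?_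
  · rw [hc0, hcK] at key; exact key
  · intro t ht
    by_cases hne : c t = c (t + 1)
    · exact Or.inl hne
    · right
      refine ⟨hne, ?_⟩
      rw [hc1 t (by omega), hc1 (t + 1) (by omega), hc2 t (by omega), hc2 (t + 1) (by omega)]
      have s1 := hstep a t
      have s2 := hstep b t
      set u := |a * ((t + 1 : ℕ) : ℤ) / K - a * t / K| with hu
      set v := |b * ((t + 1 : ℕ) : ℤ) / K - b * t / K| with hv
      have hu2 : ((p.1.val : ℤ) + a * t / K - (p.1.val + a * ((t + 1 : ℕ) : ℤ) / K)) ^ 2 = u ^ 2 := by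
        rw [hu, sq_abs]; ring
      have hv2 : ((p.2.val : ℤ) + b * t / K - (p.2.val + b * ((t + 1 : ℕ) : ℤ) / K)) ^ 2 = v ^ 2 := by
        rw [hv, sq_abs]; ring
      rw [hu2, hv2]
      have hab : a ^ 2 + b ^ 2 ≤ (((K : ℤ) - 1) * (2 * K)) ^ 2 := by
        have : a ^ 2 + b ^ 2 = ((p.1.val : ℤ) - q.1.val) ^ 2 + ((p.2.val : ℤ) - q.2.val) ^ 2 := by
          rw [ha, hb]; ring
        rw [this]; exact h
      -- |a| + |b| ≤ 3 (K-1) K
      have hsum : |a| + |b| ≤ 3 * (((K : ℤ) - 1) * K) := by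
        have h0 : 0 ≤ ((K : ℤ) - 1) * K := by nlinarith
        have h1 : (|a| + |b|) ^ 2 ≤ (3 * (((K : ℤ) - 1) * K)) ^ 2 := by
          have e1 : |a| ^ 2 = a ^ 2 := sq_abs a
          have e2 : |b| ^ 2 = b ^ 2 := sq_abs b
          nlinarith [sq_nonneg (|a| - |b|), sq_nonneg (((K : ℤ) - 1) * K)]
        exact (le_abs_self _).trans (abs_le_of_sq_le_sq h1 (by linarith))
      have hu0 : 0 ≤ u := abs_nonneg _
      have hv0 : 0 ≤ v := abs_nonneg _
      have q1 : (K * u) ^ 2 ≤ (|a| + K) ^ 2 := by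
        apply pow_le_pow_left₀ (by positivity) s1
      have q2 : (K * v) ^ 2 ≤ (|b| + K) ^ 2 := by
        apply pow_le_pow_left₀ (by positivity) s2
      have e1 : |a| ^ 2 = a ^ 2 := sq_abs a
      have e2 : |b| ^ 2 = b ^ 2 := sq_abs b
      have q3 : (K : ℤ) ^ 2 * (u ^ 2 + v ^ 2) ≤
          (((K : ℤ) - 1) * (2 * K)) ^ 2 + 2 * K * (3 * (((K : ℤ) - 1) * K)) + 2 * K ^ 2 := by
        have h9 : 2 * (K : ℤ) * (|a| + |b|) ≤ 2 * K * (3 * (((K : ℤ) - 1) * K)) :=
          mul_le_mul_of_nonneg_left hsum (by positivity)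
        calc (K : ℤ) ^ 2 * (u ^ 2 + v ^ 2) = (K * u) ^ 2 + (K * v) ^ 2 := by ring
          _ ≤ (|a| + K) ^ 2 + (|b| + K) ^ 2 := add_le_add q1 q2
          _ = (|a| ^ 2 + |b| ^ 2) + 2 * (K : ℤ) * (|a| + |b|) + 2 * K ^ 2 := by ring
          _ = (a ^ 2 + b ^ 2) + 2 * (K : ℤ) * (|a| + |b|) + 2 * K ^ 2 := by rw [e1, e2]
          _ ≤ _ := by linarith
      have q4 : (((K : ℤ) - 1) * (2 * K)) ^ 2 + 2 * K * (3 * (((K : ℤ) - 1) * K)) + 2 * K ^ 2
          ≤ (K : ℤ) ^ 2 * (2 * K) ^ 2 := by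
        have : (K : ℤ) ^ 2 * (2 * K) ^ 2 - ((((K : ℤ) - 1) * (2 * K)) ^ 2 +
            2 * K * (3 * (((K : ℤ) - 1) * K)) + 2 * K ^ 2) = 2 * (K : ℤ) ^ 3 := by ring
        have : (0 : ℤ) ≤ 2 * (K : ℤ) ^ 3 := by positivity
        linarith
      have q5 : (K : ℤ) ^ 2 * (u ^ 2 + v ^ 2) ≤ (K : ℤ) ^ 2 * (2 * K) ^ 2 := q3.trans q4
      have q6 : u ^ 2 + v ^ 2 ≤ (2 * (K : ℤ)) ^ 2 := le_of_mul_le_mul_left q5 (by positivity)
      push_cast
      exact q6

/-! ## The upper bound for `BGC` -/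

lemma plane_ineq (m l K p1 p2 u1 u2 w1 w2 : ℝ) (hm : 0 < m)
    (hlK : 32 * l ^ 2 * K ≤ (K - 1) ^ 4)
    (h1 : (p1 + u1) ^ 2 + (p2 + u2) ^ 2 ≤ p1 ^ 2 + p2 ^ 2)
    (h2 : (p1 + w1) ^ 2 + (p2 + w2) ^ 2 ≤ p1 ^ 2 + p2 ^ 2)
    (h3 : u1 ^ 2 + u2 ^ 2 ≤ (m * (K + 1)) ^ 2)
    (h4 : w1 ^ 2 + w2 ^ 2 ≤ (m * (K + 1)) ^ 2)
    (h5 : (2 * (K - 1) * m) ^ 2 < (u1 - w1) ^ 2 + (u2 - w2) ^ 2)
    (h6 : p1 ^ 2 + p2 ^ 2 ≤ 2 * (l * m) ^ 2) : False := by
  set U := u1 ^ 2 + u2 ^ 2 + (w1 ^ 2 + w2 ^ 2) with hU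
  set T := p1 * (u1 + w1) + p2 * (u2 + w2) with hT
  have hUT : U ≤ -2 * T := by rw [hU, hT]; nlinarith
  have hS : (u1 + w1) ^ 2 + (u2 + w2) ^ 2 ≤ 16 * m ^ 2 * K := by nlinarith
  have hT2 : T ^ 2 ≤ (p1 ^ 2 + p2 ^ 2) * ((u1 + w1) ^ 2 + (u2 + w2) ^ 2) := by
    rw [hT]; nlinarith [sq_nonneg (p1 * (u2 + w2) - p2 * (u1 + w1))]
  have hT3 : T ^ 2 ≤ (2 * (l * m) ^ 2) * (16 * m ^ 2 * K) :=
    hT2.trans (mul_le_mul h6 hS (by positivity) (by positivity))
  have hU1 : 2 * (K - 1) ^ 2 * m ^ 2 < U := by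
    have : (u1 - w1) ^ 2 + (u2 - w2) ^ 2 ≤ 2 * U := by
      rw [hU]; nlinarith [sq_nonneg (u1 + w1), sq_nonneg (u2 + w2)]
    nlinarith
  have hU0 : 0 ≤ 2 * (K - 1) ^ 2 * m ^ 2 := by positivity
  have hU2 : (2 * (K - 1) ^ 2 * m ^ 2) ^ 2 < U ^ 2 := by
    apply pow_lt_pow_left₀ hU1 hU0 (by norm_num)
  have hU3 : U ^ 2 ≤ (-2 * T) ^ 2 := by
    apply pow_le_pow_left₀ _ hUT
    rw [hU]; positivity
  have hfin : (K - 1) ^ 4 * m ^ 4 < (32 * l ^ 2 * K) * m ^ 4 := by nlinarith
  have : (32 * l ^ 2 * K) * m ^ 4 ≤ (K - 1) ^ 4 * m ^ 4 :=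
    mul_le_mul_of_nonneg_right hlK (by positivity)
  linarith

/-- Position of a grid point relative to the centre of the square, scaled by `2`. -/
noncomputable def pos (L : ℕ) (p : Fin (L + 1) × Fin (L + 1)) : ℂ :=
  ⟨2 * (p.1.val : ℝ) - L, 2 * (p.2.val : ℝ) - L⟩

lemma pos_lip (L m : ℕ) (u v : Fin (L + 1) × Fin (L + 1)) (h : (gridGraph L m).Adj u v) :
    ‖pos L u - pos L v‖ ≤ 2 * m := by
  have h2 : ((u.1.val : ℝ) - v.1.val) ^ 2 + ((u.2.val : ℝ) - v.2.val) ^ 2 ≤ (m : ℝ) ^ 2 := by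
    exact_mod_cast h.2
  have h3 : ‖pos L u - pos L v‖ ^ 2 ≤ (2 * (m : ℝ)) ^ 2 := by
    rw [Complex.sq_norm, Complex.normSq_apply]
    simp only [pos, Complex.sub_re, Complex.sub_im]
    nlinarith
  exact (le_abs_self _).trans (abs_le_of_sq_le_sq h3 (by positivity))

/-- Every cycle of length at least `2(K+1)` has a `K`-bridge, `K + 1 = 2a`, provided that the grid
is small enough. -/
lemma exists_bridge (l K a L : ℕ) (hL : L = l * (2 * K)) (hKa : K + 1 = 2 * a) (hK : 1 ≤ K)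
    (hlK : 32 * (l : ℝ) ^ 2 * K ≤ ((K : ℝ) - 1) ^ 4) (n : ℕ) (hn : 3 ≤ n) (hn4 : 4 * a ≤ n)
    (f : Copy (cycleGraph n) (gridGraph L (2 * K))) :
    ∃ v z : Fin n, IsBridge f K v z := by
  have hconn : (gridGraph L (2 * K)).Connected := gridGraph_connected L (2 * K) (by omega)
  have ha : 1 ≤ a := by omega
  have : Nonempty (Fin n) := ⟨⟨0, by omega⟩⟩
  obtain ⟨i0, hi0⟩ := Finite.exists_max (fun i : Fin n => ‖pos L (f i)‖)
  have hi0lt := i0.isLt
  set A := idx n hn (i0.val + a) with hA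
  set B := idx n hn (i0.val + (n - a)) with hB
  refine ⟨A, B, ?_, ?_⟩
  swap
  · -- cyclic distance
    have hAv : A.val = i0.val + a ∨ A.val + n = i0.val + a := by
      rcases Nat.lt_or_ge (i0.val + a) n with h | h
      · left; exact Nat.mod_eq_of_lt h
      · right
        have : A.val = (i0.val + a) % n := rfl
        rw [this, Nat.mod_eq_sub_mod h, Nat.mod_eq_of_lt (by omega)]; omega
    have hBv : B.val = i0.val + (n - a) ∨ B.val + n = i0.val + (n - a) := by
      rcases Nat.lt_or_ge (i0.val + (n - a)) n with h | h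
      · left; exact Nat.mod_eq_of_lt h
      · right
        have : B.val = (i0.val + (n - a)) % n := rfl
        rw [this, Nat.mod_eq_sub_mod h, Nat.mod_eq_of_lt (by omega)]; omega
    have hAl := A.isLt
    have hBl := B.isLt
    have h := cyc_le_dist hn A B
    have h2 : (2 * a : ℤ) ≤ cyc n A B := by
      unfold cyc
      rw [abs_eq_max_neg]
      rcases hAv with h | h <;> rcases hBv with h' | h' <;> omega
    omega
  · -- the graph distance
    by_contra hcon
    push Not at hcon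
    -- Lipschitz bounds
    have hA1 : (gridGraph L (2 * K)).dist (f A) (f i0) ≤ a := by
      refine (copy_dist_le hn f A i0).trans ?_
      have h := idx_dist_le hn i0.val a
      have h1 : idx n hn i0.val = i0 := Fin.ext (Nat.mod_eq_of_lt i0.isLt)
      rw [h1, SimpleGraph.dist_comm] at h
      exact h
    have hB1 : (gridGraph L (2 * K)).dist (f B) (f i0) ≤ a := by
      refine (copy_dist_le hn f B i0).trans ?_
      have h := idx_dist_le hn (i0.val + (n - a)) a
      have h1 : idx n hn (i0.val + (n - a) + a) = i0 :=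
        Fin.ext (by simp only [idx]; rw [show i0.val + (n - a) + a = i0.val + n by omega,
                      Nat.add_mod_right]; exact Nat.mod_eq_of_lt i0.isLt)
      rw [h1] at h
      exact h
    have hbound : ∀ i : Fin n, (gridGraph L (2 * K)).dist (f i) (f i0) ≤ a →
        ‖pos L (f i) - pos L (f i0)‖ ^ 2 ≤ (((2 * K : ℕ) : ℝ) * ((K : ℝ) + 1)) ^ 2 := by
      intro i hi
      have h1 := norm_le_mul_dist hconn (pos L) (2 * ((2 * K : ℕ) : ℝ)) (fun u v h => pos_lip L (2 * K) u v h)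
        (f i) (f i0)
      have h2 : ((gridGraph L (2 * K)).dist (f i) (f i0) : ℝ) ≤ a := by exact_mod_cast hi
      have h3 : (K : ℝ) + 1 = 2 * a := by exact_mod_cast hKa
      have h4 : ‖pos L (f i) - pos L (f i0)‖ ≤ ((2 * K : ℕ) : ℝ) * ((K : ℝ) + 1) := by
        rw [h3]
        refine h1.trans ?_
        have : (0 : ℝ) ≤ 2 * ((2 * K : ℕ) : ℝ) := by positivity
        nlinarith [mul_le_mul_of_nonneg_left h2 this]
      exact pow_le_pow_left₀ (norm_nonneg _) h4 2
    have hA2 := hbound A hA1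
    have hB2 := hbound B hB1
    have hA3 : ‖pos L (f A)‖ ^ 2 ≤ ‖pos L (f i0)‖ ^ 2 := pow_le_pow_left₀ (norm_nonneg _) (hi0 A) 2
    have hB3 : ‖pos L (f B)‖ ^ 2 ≤ ‖pos L (f i0)‖ ^ 2 := pow_le_pow_left₀ (norm_nonneg _) (hi0 B) 2
    rw [Complex.sq_norm, Complex.normSq_apply] at hA2 hB2
    rw [Complex.sq_norm, Complex.normSq_apply, Complex.sq_norm, Complex.normSq_apply] at hA3 hB3
    simp only [pos, Complex.sub_re, Complex.sub_im] at hA2 hB2 hA3 hB3
    -- distance of A and B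
    have hAB : ¬ (((f A).1.val : ℤ) - (f B).1.val) ^ 2 + (((f A).2.val : ℤ) - (f B).2.val) ^ 2
      ≤ (((K : ℤ) - 1) * (2 * K)) ^ 2 := by
      intro h
      have := grid_dist_le L K hK (f A) (f B) h
      omega
    push Not at hAB
    have hAB' : (((K : ℝ) - 1) * (2 * K)) ^ 2 <
        (((f A).1.val : ℝ) - (f B).1.val) ^ 2 + (((f A).2.val : ℝ) - (f B).2.val) ^ 2 := by
      exact_mod_cast hAB
    have hL' : (L : ℝ) = l * ((2 * K : ℕ) : ℝ) := by rw [hL]; push_cast; ring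
    have hrange : ∀ x : Fin (L + 1), (2 * (x.val : ℝ) - L) ^ 2 ≤ (L : ℝ) ^ 2 := by
      intro x
      have h1 : (x.val : ℝ) ≤ L := by
        have := x.isLt
        exact_mod_cast (by omega : x.val ≤ L)
      have h2 : (0 : ℝ) ≤ x.val := by positivity
      nlinarith
    have r1 := hrange (f i0).1
    have r2 := hrange (f i0).2
    push_cast at hL' hA2 hB2
    rw [hL'] at r1 r2 hA2 hB2 hA3 hB3
    refine plane_ineq (2 * (K : ℝ)) l K
      (2 * ((f i0).1.val : ℝ) - l * (2 * K)) (2 * ((f i0).2.val : ℝ) - l * (2 * K))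
      (2 * ((f A).1.val : ℝ) - 2 * (f i0).1.val) (2 * ((f A).2.val : ℝ) - 2 * (f i0).2.val)
      (2 * ((f B).1.val : ℝ) - 2 * (f i0).1.val) (2 * ((f B).2.val : ℝ) - 2 * (f i0).2.val)
      (by have : (1 : ℝ) ≤ K := by exact_mod_cast hK
          linarith) hlK ?_ ?_ ?_ ?_ ?_ ?_
    · linarith [hA3]
    · linarith [hB3]
    · linarith [hA2]
    · linarith [hB2]
    · linarith [hAB']
    · linarith [r1, r2]

/-! ## The lower bound for `bgc` -/

/-- Coordinates (in units of `m`) of the `i`-th point of the boundary of the square. -/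
def xc (l i : ℕ) : ℕ := min i (min l (3 * l - i))

/-- Coordinates (in units of `m`) of the `i`-th point of the boundary of the square. -/
def yc (l i : ℕ) : ℕ := min (i - l) (min l (4 * l - i))

lemma xc_lt (l m i : ℕ) : xc l i * m < l * m + 1 := by
  have : xc l i ≤ l := by unfold xc; omega
  have := Nat.mul_le_mul_right m this
  omega

lemma yc_lt (l m i : ℕ) : yc l i * m < l * m + 1 := by
  have : yc l i ≤ l := by unfold yc; omega
  have := Nat.mul_le_mul_right m this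
  omega

/-- The boundary of the square, as a map. -/
def sqMap (l m : ℕ) (i : Fin (4 * l)) : Fin (l * m + 1) × Fin (l * m + 1) :=
  (⟨xc l i.val * m, xc_lt l m i.val⟩, ⟨yc l i.val * m, yc_lt l m i.val⟩)

lemma sqMap_inj (l m : ℕ) (hm : 1 ≤ m) : Function.Injective (sqMap l m) := by
  intro i j hij
  have hi := i.isLt
  have hj := j.isLt
  simp only [sqMap, Prod.mk.injEq, Fin.mk.injEq] at hij
  have h1 := Nat.eq_of_mul_eq_mul_right (by omega) hij.1
  have h2 := Nat.eq_of_mul_eq_mul_right (by omega) hij.2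
  unfold xc at h1
  unfold yc at h2
  apply Fin.ext
  omega

lemma coord_step (l a : ℕ) (ha : a + 1 ≤ 4 * l) :
    ((xc l a : ℤ) - xc l (a + 1)) ^ 2 + ((yc l a : ℤ) - yc l (a + 1)) ^ 2 ≤ 1 := by
  rcases Nat.lt_or_ge a l with h1 | h1
  · have e1 : xc l a = a := by unfold xc; omega
    have e2 : xc l (a + 1) = a + 1 := by unfold xc; omega
    have e3 : yc l a = 0 := by unfold yc; omega
    have e4 : yc l (a + 1) = 0 := by unfold yc; omega
    rw [e1, e2, e3, e4]; push_cast; ring_nf; rfl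
  · rcases Nat.lt_or_ge a (2 * l) with h2 | h2
    · have e1 : xc l a = l := by unfold xc; omega
      have e2 : xc l (a + 1) = l := by unfold xc; omega
      have e3 : yc l a = a - l := by unfold yc; omega
      have e4 : yc l (a + 1) = a - l + 1 := by unfold yc; omega
      rw [e1, e2, e3, e4]; push_cast; ring_nf; rfl
    · rcases Nat.lt_or_ge a (3 * l) with h3 | h3
      · have e1 : xc l a = (3 * l - (a + 1)) + 1 := by unfold xc; omega
        have e2 : xc l (a + 1) = 3 * l - (a + 1) := by unfold xc; omega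
        have e3 : yc l a = l := by unfold yc; omega
        have e4 : yc l (a + 1) = l := by unfold yc; omega
        rw [e1, e2, e3, e4]; push_cast; ring_nf; rfl
      · have e1 : xc l a = 0 := by unfold xc; omega
        have e2 : xc l (a + 1) = 0 := by unfold xc; omega
        have e3 : yc l a = (4 * l - (a + 1)) + 1 := by unfold yc; omega
        have e4 : yc l (a + 1) = 4 * l - (a + 1) := by unfold yc; omega
        rw [e1, e2, e3, e4]; push_cast; ring_nf; rfl

lemma coord_end (l : ℕ) : xc l (4 * l) = xc l 0 ∧ yc l (4 * l) = yc l 0 := by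
  unfold xc yc; constructor <;> omega

lemma sqMap_adj (l m : ℕ) (hl : 1 ≤ l) (hm : 1 ≤ m) (i j : Fin (4 * l))
    (h : (cycleGraph (4 * l)).Adj i j) :
    (gridGraph (l * m) m).Adj (sqMap l m i) (sqMap l m j) := by
  refine ⟨fun he => h.ne (sqMap_inj l m hm he), ?_⟩
  have hi := i.isLt
  have hj := j.isLt
  rw [cycle_adj_iff (by omega)] at h
  have h1 : ((xc l i.val : ℤ) - xc l j.val) ^ 2 + ((yc l i.val : ℤ) - yc l j.val) ^ 2 ≤ 1 := by
    rcases h with h | h | ⟨h, h'⟩ | ⟨h, h'⟩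
    · rw [h]; exact coord_step l i.val (by omega)
    · have := coord_step l j.val (by omega)
      rw [h]; linarith
    · have := coord_step l j.val (by omega)
      rw [h', (coord_end l).1, (coord_end l).2] at this
      rw [h]; linarith
    · have := coord_step l i.val (by omega)
      rw [h', (coord_end l).1, (coord_end l).2] at this
      rw [h]; exact this
  have h3 : (((sqMap l m i).1.val : ℤ) - (sqMap l m j).1.val) ^ 2 +
      (((sqMap l m i).2.val : ℤ) - (sqMap l m j).2.val) ^ 2 =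
      (((xc l i.val : ℤ) - xc l j.val) ^ 2 + ((yc l i.val : ℤ) - yc l j.val) ^ 2) * (m : ℤ) ^ 2 := by
    simp only [sqMap]
    push_cast
    ring
  rw [h3]
  calc _ ≤ 1 * (m : ℤ) ^ 2 := mul_le_mul_of_nonneg_right h1 (by positivity)
    _ = _ := one_mul _

/-- The boundary of the square, as a cycle. -/
def sqCycle (l m : ℕ) (hl : 1 ≤ l) (hm : 1 ≤ m) :
    Copy (cycleGraph (4 * l)) (gridGraph (l * m) m) :=
  ⟨⟨sqMap l m, fun {i j} h => sqMap_adj l m hl hm i j h⟩, sqMap_inj l m hm⟩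

lemma sqCycle_apply (l m : ℕ) (hl : 1 ≤ l) (hm : 1 ≤ m) (i : Fin (4 * l)) :
    sqCycle l m hl hm i = sqMap l m i := rfl

lemma sq_dist_x (l m : ℕ) (hm : 1 ≤ m) (i j : Fin (4 * l)) :
    |(xc l i.val : ℤ) - xc l j.val| ≤ (gridGraph (l * m) m).dist (sqMap l m i) (sqMap l m j) := by
  have h := norm_le_mul_dist (gridGraph_connected (l * m) m hm)
    (fun p : Fin (l * m + 1) × Fin (l * m + 1) => (p.1.val : ℝ)) m ?_ (sqMap l m i) (sqMap l m j)
  · simp only [sqMap, Real.norm_eq_abs] at h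
    push_cast at h
    rw [← sub_mul, abs_mul, Nat.abs_cast, mul_comm] at h
    have hm' : (0 : ℝ) < m := by exact_mod_cast hm
    have h2 := le_of_mul_le_mul_left h hm'
    have h3 : ((|(xc l i.val : ℤ) - xc l j.val| : ℤ) : ℝ) ≤
        (gridGraph (l * m) m).dist (sqMap l m i) (sqMap l m j) := by
      push_cast
      exact h2
    exact_mod_cast h3
  · intro u v huv
    have h2 := huv.2
    have h3 : ((u.1.val : ℤ) - v.1.val) ^ 2 ≤ (m : ℤ) ^ 2 := by nlinarith
    have h4 := abs_le_of_sq_le_sq h3 (by positivity)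
    rw [Real.norm_eq_abs]
    exact_mod_cast h4

lemma sq_dist_y (l m : ℕ) (hm : 1 ≤ m) (i j : Fin (4 * l)) :
    |(yc l i.val : ℤ) - yc l j.val| ≤ (gridGraph (l * m) m).dist (sqMap l m i) (sqMap l m j) := by
  have h := norm_le_mul_dist (gridGraph_connected (l * m) m hm)
    (fun p : Fin (l * m + 1) × Fin (l * m + 1) => (p.2.val : ℝ)) m ?_ (sqMap l m i) (sqMap l m j)
  · simp only [sqMap, Real.norm_eq_abs] at h
    push_cast at h
    rw [← sub_mul, abs_mul, Nat.abs_cast, mul_comm] at h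
    have hm' : (0 : ℝ) < m := by exact_mod_cast hm
    have h2 := le_of_mul_le_mul_left h hm'
    have h3 : ((|(yc l i.val : ℤ) - yc l j.val| : ℤ) : ℝ) ≤
        (gridGraph (l * m) m).dist (sqMap l m i) (sqMap l m j) := by
      push_cast
      exact h2
    exact_mod_cast h3
  · intro u v huv
    have h2 := huv.2
    have h3 : ((u.2.val : ℤ) - v.2.val) ^ 2 ≤ (m : ℤ) ^ 2 := by nlinarith
    have h4 := abs_le_of_sq_le_sq h3 (by positivity)
    rw [Real.norm_eq_abs]
    exact_mod_cast h4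

lemma exists_arc {n : ℕ} (hn : 3 ≤ n) : ∀ (t i : ℕ) (h : i + t < n),
    ∃ w : (cycleGraph n).Walk ⟨i, by omega⟩ ⟨i + t, h⟩, w.length = t ∧
      ∀ v : Fin n, v ∈ w.support ↔ i ≤ v.val ∧ v.val ≤ i + t := by
  intro t
  induction t with
  | zero =>
    intro i h
    refine ⟨Walk.nil, rfl, ?_⟩
    intro v
    simp only [Walk.support_nil, List.mem_singleton, Fin.ext_iff]
    omega
  | succ t ih =>
    intro i h
    obtain ⟨w, hw1, hw2⟩ := ih (i + 1) (by omega)
    have hadj : (cycleGraph n).Adj ⟨i, by omega⟩ ⟨i + 1, by omega⟩ := by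
      rw [cycle_adj_iff hn]; left; rfl
    have he : (⟨i + 1 + t, by omega⟩ : Fin n) = ⟨i + (t + 1), h⟩ := Fin.ext (by simp only; omega)
    refine ⟨(Walk.cons hadj w).copy rfl he, ?_, ?_⟩
    · rw [Walk.length_copy, Walk.length_cons, hw1]
    · intro v
      rw [Walk.support_copy, Walk.support_cons, List.mem_cons, hw2 v, Fin.ext_iff]
      simp only
      omega

lemma not_bgcProp (l m μ : ℕ) (hm : 1 ≤ m) (hμ : 2 * μ + 4 ≤ l) :
    ¬ BgcProp (gridGraph (l * m) m) μ := by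
  intro hprop
  have hl : 1 ≤ l := by omega
  have hn : 3 ≤ 4 * l := by omega
  set K := (μ + 1) / 2 with hK
  have hK2 : 2 * K ≤ μ + 1 := by omega
  obtain ⟨x, y, w, hxv, hyv, hw1, hw2⟩ : ∃ (x y : Fin (4 * l)) (w : (cycleGraph (4 * l)).Walk x y),
      x.val = K + 1 ∧ y.val = K + 1 + (μ + 1) ∧ w.length = μ + 1 ∧
        ∀ v : Fin (4 * l), v ∈ w.support ↔ K + 1 ≤ v.val ∧ v.val ≤ K + 1 + (μ + 1) := by
    obtain ⟨w, hw1, hw2⟩ := exists_arc hn (μ + 1) (K + 1) (by omega)
    exact ⟨_, _, w, rfl, rfl, hw1, hw2⟩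
  have hcd : (cycleGraph (4 * l)).dist x y = μ + 1 := by
    have h := dist_eq_cyc hn x y
    unfold cyc at h
    rw [abs_eq_max_neg, hxv, hyv] at h
    omega
  have hgd : (gridGraph (l * m) m).dist (sqCycle l m hl hm x) (sqCycle l m hl hm y) = μ + 1 := by
    apply le_antisymm
    · rw [← hcd]; exact copy_dist_le hn (sqCycle l m hl hm) x y
    · have h := sq_dist_x l m hm x y
      rw [sqCycle_apply, sqCycle_apply]
      have h1 : xc l x.val = K + 1 := by unfold xc; omega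
      have h2 : xc l y.val = K + 1 + (μ + 1) := by unfold xc; omega
      rw [h1, h2, abs_eq_max_neg] at h
      omega
  have hnl : ¬ LocallyGeodesic (sqCycle l m hl hm) μ := by
    intro h
    have := h x y (μ + 1) hgd hcd
    omega
  obtain ⟨v, hv, z, hz, hb1, hb2⟩ := hprop (4 * l) hn (sqCycle l m hl hm) hnl
    {i | i ∈ w.support} ⟨x, y, hgd, hcd, w, by rw [hw1, hcd], rfl⟩
  rw [Set.mem_ofPred_eq, hw2] at hv hz
  rw [sqCycle_apply, sqCycle_apply] at hb1
  have hbx := sq_dist_x l m hm v z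
  have hby := sq_dist_y l m hm v z
  have hc := dist_eq_cyc hn v z
  have hvl := v.isLt
  have hzl := z.isLt
  have e1 : |(xc l v.val : ℤ) - xc l z.val| ≤ K := by omega
  have e2 : |(yc l v.val : ℤ) - yc l z.val| ≤ K := by omega
  have e3 : (K : ℤ) < cyc (4 * l) v z := by omega
  rw [abs_eq_max_neg] at e1 e2
  unfold cyc at e3
  rw [abs_eq_max_neg] at e3
  have f1 : xc l v.val = v.val := by unfold xc; omega
  have f2 : yc l v.val = 0 := by unfold yc; omega
  rw [f1] at e1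
  rw [f2] at e2
  rcases Nat.lt_or_ge l z.val with h1 | h1
  · rcases Nat.lt_or_ge z.val (4 * l - K) with h2 | h2
    · rcases Nat.lt_or_ge (l + K) z.val with h3 | h3
      · have g2 : K < yc l z.val := by unfold yc; omega
        omega
      · have g1 : xc l z.val = l := by unfold xc; omega
        omega
    · have g1 : xc l z.val = 0 := by unfold xc; omega
      omega
  · have g1 : xc l z.val = z.val := by unfold xc; omega
    omega

lemma bgc_mem (G : SimpleGraph V) [Finite V] :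
    1 ≤ bgc G ∧ BgcProp G (bgc G) := by
  apply Nat.sInf_mem (s := {μ : ℕ | 1 ≤ μ ∧ BgcProp G μ})
  rcases isEmpty_or_nonempty V with hV | hV
  · refine ⟨1, le_rfl, ?_⟩
    intro n hn f _
    exact (hV.false (f ⟨0, by omega⟩)).elim
  · obtain ⟨p, hp⟩ := Finite.exists_max (fun p : V × V => G.dist p.1 p.2)
    refine ⟨G.dist p.1 p.2 + 1, by omega, ?_⟩
    intro n hn f hf
    exfalso
    apply hf
    intro i j l h1 h2
    have := hp (f i, f j)
    simp only at this
    omega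

/-- The upper bound `BGC ≤ 2K - 1` for the grid of side `j³` (in units), `K = (2j+1)²`. -/
lemma relaxed_upper (j : ℕ) (hj : 1 ≤ j) :
    RelaxedProp (gridGraph (j ^ 3 * (2 * (2 * j + 1) ^ 2)) (2 * (2 * j + 1) ^ 2))
      (2 * (2 * j + 1) ^ 2 - 1) := by
  intro n hn f hf
  have hK1 : 1 ≤ (2 * j + 1) ^ 2 := Nat.one_le_pow _ _ (by omega)
  have hfl : (2 * (2 * j + 1) ^ 2 - 1 + 1) / 2 = (2 * j + 1) ^ 2 := by omega
  rw [hfl]
  have hKa : (2 * j + 1) ^ 2 + 1 = 2 * (2 * j ^ 2 + 2 * j + 1) := by ring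
  have hn4 : 4 * (2 * j ^ 2 + 2 * j + 1) ≤ n := by
    unfold LocallyGeodesic at hf
    push Not at hf
    obtain ⟨i, i', l, _, h2, h3⟩ := hf
    have h4 := dist_le_cyc hn i i'
    have h5 : 2 * cyc n i i' ≤ n := by
      unfold cyc
      have := min_le_left |(i.val : ℤ) - i'.val| (n - |(i.val : ℤ) - i'.val|)
      have := min_le_right |(i.val : ℤ) - i'.val| (n - |(i.val : ℤ) - i'.val|)
      omega
    omega
  refine exists_bridge (j ^ 3) ((2 * j + 1) ^ 2) (2 * j ^ 2 + 2 * j + 1) _ rfl hKa hK1 ?_ n hn hn4 f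
  have hj' : (1 : ℝ) ≤ j := by exact_mod_cast hj
  push_cast
  have e1 : ((2 * (j : ℝ) + 1) ^ 2 - 1) ^ 4 = 256 * j ^ 4 * (j + 1) ^ 4 := by ring
  rw [e1]
  have e2 : (2 * (j : ℝ) + 1) ^ 2 ≤ 4 * (j + 1) ^ 2 := by nlinarith
  have e3 : (j : ℝ) ^ 2 ≤ (j + 1) ^ 2 := by nlinarith
  calc 32 * ((j : ℝ) ^ 3) ^ 2 * (2 * j + 1) ^ 2 ≤ 32 * ((j : ℝ) ^ 3) ^ 2 * (4 * (j + 1) ^ 2) :=
        mul_le_mul_of_nonneg_left e2 (by positivity)
    _ = 128 * (j ^ 4 * (j + 1) ^ 2) * j ^ 2 := by ring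
    _ ≤ 128 * (j ^ 4 * (j + 1) ^ 2) * (j + 1) ^ 2 := mul_le_mul_of_nonneg_left e3 (by positivity)
    _ ≤ 256 * (j ^ 4 * (j + 1) ^ 2) * (j + 1) ^ 2 :=
        mul_le_mul_of_nonneg_right (by nlinarith [show (0 : ℝ) ≤ j ^ 4 * (j + 1) ^ 2 by positivity])
          (by positivity)
    _ = 256 * j ^ 4 * (j + 1) ^ 4 := by ring

/-- For every `c` there is a finite connected graph `G` with `bgc(G) > c · BGC(G)`. -/
theorem result : ∀ c : ℝ, ∃ (V : Type) (_ : Fintype V) (G : SimpleGraph V),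
    G.Connected ∧ c * (BGC G : ℝ) < (bgc G : ℝ) := by
  intro c
  set j : ℕ := ⌈36 * |c|⌉₊ + 2 with hj
  have hj2 : 2 ≤ j := by omega
  have hjc : 36 * |c| + 2 ≤ (j : ℝ) := by
    rw [hj]; push_cast
    have := Nat.le_ceil (36 * |c|)
    linarith
  refine ⟨Fin (j ^ 3 * (2 * (2 * j + 1) ^ 2) + 1) × Fin (j ^ 3 * (2 * (2 * j + 1) ^ 2) + 1),
    inferInstance, gridGraph (j ^ 3 * (2 * (2 * j + 1) ^ 2)) (2 * (2 * j + 1) ^ 2), ?_, ?_⟩
  · exact gridGraph_connected _ _ (by have : 1 ≤ (2 * j + 1) ^ 2 := Nat.one_le_pow _ _ (by omega)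
                                      omega)
  set G := gridGraph (j ^ 3 * (2 * (2 * j + 1) ^ 2)) (2 * (2 * j + 1) ^ 2) with hG
  have hK1 : 1 ≤ (2 * j + 1) ^ 2 := Nat.one_le_pow _ _ (by omega)
  have hup : BGC G ≤ 2 * (2 * j + 1) ^ 2 - 1 :=
    Nat.sInf_le ⟨by omega, relaxed_upper j (by omega)⟩
  have hlow : j ^ 3 < 2 * bgc G + 4 := by
    by_contra hcon
    push Not at hcon
    exact not_bgcProp (j ^ 3) (2 * (2 * j + 1) ^ 2) (bgc G) (by omega) hcon (bgc_mem G).2
  have hup' : (BGC G : ℝ) ≤ 18 * (j : ℝ) ^ 2 := by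
    have h1 : BGC G ≤ 18 * j ^ 2 := by
      have : (2 * j + 1) ^ 2 ≤ 9 * j ^ 2 := by nlinarith
      omega
    exact_mod_cast h1
  have hlow' : (j : ℝ) ^ 3 < 2 * (bgc G : ℝ) + 4 := by exact_mod_cast hlow
  have h0 : (0 : ℝ) ≤ BGC G := by positivity
  have h1 : c * (BGC G : ℝ) ≤ |c| * (18 * (j : ℝ) ^ 2) :=
    (mul_le_mul_of_nonneg_right (le_abs_self c) h0).trans
      (mul_le_mul_of_nonneg_left hup' (abs_nonneg c))
  have hj2' : (2 : ℝ) ≤ j := by exact_mod_cast hj2
  have h3 : (36 * |c| + 2) * (j : ℝ) ^ 2 ≤ j * (j : ℝ) ^ 2 :=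
    mul_le_mul_of_nonneg_right hjc (by positivity)
  nlinarith

end Pool.Agent.Results.MP_936e79_co.NoLinearBound
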